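import Pool.Agent.Q120.SX.Stm

set_option autoImplicit false

/-! Project SX (helper120), job SPD: the limit points are in the simplex (deterministic). -/

namespace Pool.Agent.Q195.SX.SPD

open Finset Filter Pool.Agent.Q120.ET Pool.Agent.Q120.GM Pool.Agent.Q120.GE Pool.Agent.Q120.RZ Pool.Agent.Q120.SI
  Pool.Agent.Q120.MG Pool.Agent.Q120.SX

theorem mem_rb {S : Set ℕ} {k x : ℕ} : x ∈ rb S k ↔ (2 ^ k ≤ x ∧ x < 2 ^ (k + 1)) ∧ x ∈ S := by
  classical
  unfold rb block
  rw [Finset.mem_filter, Finset.mem_Ico]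

/-- few elements between `elt S n` and `elt S (n + m)` -/
theorem card_between {S : Set ℕ} (hmono : StrictMono (elt S)) {n m : ℕ} (hm : 1 ≤ m) {T : Finset ℕ}
    (h : ∀ x ∈ T, x ∈ S ∧ elt S n < x ∧ x < elt S (n + m)) : T.card < m := by
  classical
  have h1 : T ⊆ (Ioo n (n + m)).image (elt S) := by
    intro x hx
    obtain ⟨h2, h3, h4⟩ := h x hx
    have h5 : elt S (Nat.count (fun a => a ∈ S) x) = x := Nat.nth_count (p := fun a => a ∈ S) h2
    rw [Finset.mem_image]
    refine ⟨Nat.count (fun a => a ∈ S) x, ?_, h5⟩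
    rw [Finset.mem_Ioo]
    rw [← h5] at h3 h4
    exact ⟨hmono.lt_iff_lt.1 h3, hmono.lt_iff_lt.1 h4⟩
  have h2 := (Finset.card_le_card h1).trans Finset.card_image_le
  rw [Nat.card_Ioo] at h2
  omega

theorem tele {S : Set ℕ} (n m : ℕ) :
    ∑ i : Fin m, ((elt S (n + i + 1) : ℝ) - elt S (n + i)) = (elt S (n + m) : ℝ) - elt S n := by
  rw [Fin.sum_univ_eq_sum_range (fun i : ℕ => (elt S (n + i + 1) : ℝ) - elt S (n + i)) m]
  have := Finset.sum_range_sub (fun i : ℕ => (elt S (n + i) : ℝ)) m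
  simpa [add_assoc] using this

theorem t_SPD : J_SPD := by
  classical
  intro S s hs hR m c hc
  have hl2 : (1 : ℝ) / 2 ≤ Real.log 2 := by
    have := Real.log_two_gt_d9
    linarith
  have hinf : (setOf fun a => a ∈ S).Infinite := by
    obtain ⟨K, hK⟩ := eventually_atTop.1 (hR 1 (s + 1) (by linarith))
    apply Set.infinite_of_forall_exists_gt
    intro a
    have h1 := (hK (max K a) (le_max_left _ _)).2.1
    obtain ⟨x, hx⟩ := Finset.card_pos.1 (show 0 < _ from h1)
    rw [Finset.mem_filter, mem_rb] at hx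
    refine ⟨x, hx.1.2, ?_⟩
    have h2 : a < 2 ^ a := Nat.lt_two_pow_self
    have h3 : 2 ^ a ≤ 2 ^ (max K a) := Nat.pow_le_pow_right (by norm_num) (le_max_right _ _)
    omega
  have hmono : StrictMono (elt S) := Nat.nth_strictMono hinf
  have hgap : ∀ n i : ℕ, (0 : ℝ) ≤ (elt S (n + i + 1) : ℝ) - elt S (n + i) := by
    intro n i
    have h1 : elt S (n + i) < elt S (n + i + 1) := hmono (Nat.lt_succ_self _)
    have h2 : ((elt S (n + i) : ℕ) : ℝ) ≤ elt S (n + i + 1) := by exact_mod_cast h1.le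
    linarith
  have hc' : ∀ ε : ℝ, 0 < ε → ∃ᶠ n : ℕ in atTop, ∀ i : Fin m,
      |((elt S (n + i + 1) : ℝ) - elt S (n + i)) / Real.log (elt S n) ^ 2 - c i| < ε := hc
  refine ⟨fun i => ?_, ?_⟩
  · by_contra hneg
    push Not at hneg
    obtain ⟨n, hn⟩ := (hc' (-c i) (by linarith)).exists
    have h1 := (abs_lt.1 (hn i)).2
    have h2 : 0 ≤ ((elt S (n + i + 1) : ℝ) - elt S (n + i)) / Real.log (elt S n) ^ 2 :=
      div_nonneg (hgap n i) (sq_nonneg _)
    linarith
  · by_contra hlt
    push Not at hlt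
    have hm : 1 ≤ m := by
      rcases Nat.eq_zero_or_pos m with h0 | h0
      · subst h0
        rw [Finset.univ_eq_empty, Finset.sum_empty] at hlt
        linarith
      · exact h0
    obtain ⟨D, hD⟩ : ∃ D : ℝ, D = ∑ i, c i - s := ⟨_, rfl⟩
    have hD0 : 0 < D := by linarith
    have hmR : (1 : ℝ) ≤ m := by exact_mod_cast hm
    obtain ⟨K1, hK1⟩ := eventually_atTop.1 (hR m (s + D / 3) (by linarith))
    obtain ⟨K2, hK2⟩ := exists_nat_ge (12 / D + 4)
    have hev : ∀ᶠ n : ℕ in atTop, 2 ^ (max K1 K2) ≤ n := eventually_ge_atTop _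
    obtain ⟨n, hn, hnK⟩ := ((hc' (D / (3 * m)) (by positivity)).and_eventually hev).exists
    obtain ⟨a, ha⟩ : ∃ a : ℕ, a = elt S n := ⟨_, rfl⟩
    obtain ⟨b, hb⟩ : ∃ b : ℕ, b = elt S (n + m) := ⟨_, rfl⟩
    have han : n ≤ a := by rw [ha]; exact hmono.id_le n
    obtain ⟨k, hk⟩ : ∃ k : ℕ, k = Nat.log 2 a := ⟨_, rfl⟩
    have ha0 : a ≠ 0 := by
      have : 0 < 2 ^ (max K1 K2) := by positivity
      omega
    have hk1 : 2 ^ k ≤ a := by rw [hk]; exact Nat.pow_log_le_self 2 ha0
    have hk2 : a < 2 ^ (k + 1) := by rw [hk]; exact Nat.lt_pow_succ_log_self (by norm_num) a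
    have hkK : max K1 K2 ≤ k := by
      rw [hk]
      exact Nat.le_log_of_pow_le (by norm_num) (hnK.trans han)
    have hkK1 : K1 ≤ k := (le_max_left _ _).trans hkK
    have hkK2 : (12 / D + 4 : ℝ) ≤ k := by
      have h1 : K2 ≤ k := (le_max_right _ _).trans hkK
      have h2 : (K2 : ℝ) ≤ k := by exact_mod_cast h1
      linarith
    have hD12 : 0 < 12 / D := by positivity
    have hk4 : (4 : ℝ) ≤ k := by linarith
    have hDk : 12 ≤ D * k := by
      have h1 : 12 / D ≤ k := by linarith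
      rw [div_le_iff₀ hD0] at h1
      linarith
    -- the sizes
    obtain ⟨L, hL⟩ : ∃ L : ℝ, L = (k * Real.log 2) ^ 2 := ⟨_, rfl⟩
    have hL0 : 0 ≤ L := by rw [hL]; positivity
    have hDL : 3 ≤ D * L := by
      have h1 : (k : ℝ) ≤ L := by
        have h2 : (k : ℝ) / 2 ≤ k * Real.log 2 := by nlinarith
        have h3 : ((k : ℝ) / 2) ^ 2 ≤ L := by
          rw [hL]
          exact pow_le_pow_left₀ (by positivity) h2 2
        nlinarith
      nlinarith
    have hloga : k * Real.log 2 ≤ Real.log a := by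
      have h1 : ((2 ^ k : ℕ) : ℝ) ≤ a := by exact_mod_cast hk1
      have h2 := Real.log_le_log (by positivity) h1
      push_cast at h2
      rw [Real.log_pow] at h2
      exact h2
    have hlog0 : 0 < Real.log a := by
      have : 0 < k * Real.log 2 := by nlinarith
      linarith
    have hLa : L ≤ Real.log a ^ 2 := by
      rw [hL]
      exact pow_le_pow_left₀ (by positivity) hloga 2
    have hba : (s + 2 * D / 3) * L ≤ (b : ℝ) - a := by
      have h1 : ∑ i : Fin m, (c i - D / (3 * m)) ≤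
          ∑ i : Fin m, ((elt S (n + i + 1) : ℝ) - elt S (n + i)) / Real.log (elt S n) ^ 2 := by
        apply Finset.sum_le_sum
        intro i _
        have := (abs_lt.1 (hn i)).1
        linarith
      rw [← Finset.sum_div, tele, ← ha, ← hb, Finset.sum_sub_distrib, Finset.sum_const, Finset.card_univ,
        Fintype.card_fin, nsmul_eq_mul, le_div_iff₀ (by positivity)] at h1
      have h2 : ∑ i, c i - (m : ℝ) * (D / (3 * m)) = s + 2 * D / 3 := by
        have h3 : (m : ℝ) * (D / (3 * m)) = D / 3 := by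
          field_simp
        rw [h3]
        linarith
      rw [h2] at h1
      refine le_trans ?_ h1
      exact mul_le_mul_of_nonneg_left hLa (by positivity)
    obtain ⟨h, hh⟩ : ∃ h : ℕ, h = wl (s + D / 3) k := ⟨_, rfl⟩
    have hhL : (h : ℝ) ≤ (s + D / 3) * L := by
      rw [hh, hL]
      exact Nat.floor_le (by positivity)
    have hhb : a + 1 + h ≤ b := by
      have h1 : (a : ℝ) + 1 + h ≤ b := by nlinarith
      exact_mod_cast h1
    have hRk := hK1 k hkK1
    have hRk1 := hK1 (k + 1) (by omega)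
    rw [← hh] at hRk
    by_cases hA : a + 1 + h ≤ 2 ^ (k + 1)
    · have h1 := hRk.1 (a + 1) (by omega) hA
      have h2 := card_between (T := (rb S k).filter (fun n => a + 1 ≤ n ∧ n < a + 1 + h)) hmono (n := n) hm (by
        intro x hx
        rw [Finset.mem_filter, mem_rb] at hx
        rw [← ha, ← hb]
        exact ⟨hx.1.2, by omega, by omega⟩)
      omega
    · by_cases hB : a + 1 + h / 3 ≤ 2 ^ (k + 1)
      · have h1 := hRk.2.2
        have h2 := card_between (T := (rb S k).filter (fun n => 2 ^ (k + 1) ≤ n + h / 3)) hmono (n := n) hm (by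
          intro x hx
          rw [Finset.mem_filter, mem_rb] at hx
          rw [← ha, ← hb]
          exact ⟨hx.1.2, by omega, by omega⟩)
        omega
      · have h1 := hRk1.2.1
        obtain ⟨h', hh'⟩ : ∃ h' : ℕ, h' = wl (s + D / 3) (k + 1) := ⟨_, rfl⟩
        rw [← hh'] at h1
        have hh'L : (h' : ℝ) ≤ 2 * ((s + D / 3) * L) := by
          have h3 : (h' : ℝ) ≤ (s + D / 3) * (((k + 1 : ℕ) : ℝ) * Real.log 2) ^ 2 := by
            rw [hh']
            exact Nat.floor_le (by positivity)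
          refine h3.trans ?_
          have h4 : (((k + 1 : ℕ) : ℝ) * Real.log 2) ^ 2 ≤ 2 * L := by
            rw [hL, mul_pow, mul_pow]
            push_cast
            have h5 : ((k : ℝ) + 1) ^ 2 ≤ 2 * (k : ℝ) ^ 2 := by nlinarith
            have h6 := mul_le_mul_of_nonneg_right h5 (sq_nonneg (Real.log 2))
            linarith
          have h7 := mul_le_mul_of_nonneg_left h4 (show 0 ≤ s + D / 3 by positivity)
          linarith
        have h3 : 2 ^ (k + 1) + h' / 3 ≤ b := by
          have h4 : ((h / 3 : ℕ) : ℝ) ≤ (h : ℝ) / 3 := Nat.cast_div_le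
          have h5 : ((h' / 3 : ℕ) : ℝ) ≤ (h' : ℝ) / 3 := Nat.cast_div_le
          have h6 : 2 ^ (k + 1) ≤ a + h / 3 := by omega
          have h7 : ((2 ^ (k + 1) : ℕ) : ℝ) ≤ ((a + h / 3 : ℕ) : ℝ) := by exact_mod_cast h6
          rw [Nat.cast_add] at h7
          have h8 : ((2 ^ (k + 1) + h' / 3 : ℕ) : ℝ) ≤ b := by
            rw [Nat.cast_add]
            nlinarith
          exact_mod_cast h8
        have h2 := card_between (T := (rb S (k + 1)).filter (fun n => n < 2 ^ (k + 1) + h' / 3)) hmono (n := n) hm (by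
          intro x hx
          rw [Finset.mem_filter, mem_rb] at hx
          rw [← ha, ← hb]
          exact ⟨hx.1.2, by omega, by omega⟩)
        omega

end Pool.Agent.Q195.SX.SPD
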