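import Pool.Agent.Q184.LG.GHA
import Pool.Agent.Q120.SX.Stm

set_option autoImplicit false

/-! Project SX (helper120), job SPH: the model conditioned on having many elements in all windows. -/

namespace Pool.Agent.Q195.SX

open Finset MeasureTheory Filter Pool.Agent.Q120.ET Pool.Agent.Q120.GM Pool.Agent.Q120.GE Pool.Agent.Q120.SI
  Pool.Agent.Q120.SX
open Pool.Agent.Q184.LG (pc_nonneg pc_le_one pc_block log2_half log2_one)
open scoped Topology

/-- the probability in Cramér's model that all the sets `U j` are met -/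
theorem meet_low {κ : Type} [DecidableEq κ] {k : ℕ} (hk : 2 ≤ k) (J : Finset κ) (U : κ → Finset ℕ)
    (hU : ∀ j ∈ J, U j ⊆ block k)
    (F : Finset ℕ → Prop) [DecidablePred F]
    (hF : ∀ T : Finset ℕ, T ⊆ block k → (∀ j ∈ J, ∃ n ∈ T, n ∈ U j) → F T) :
    ∏ j ∈ J, (1 - ∏ n ∈ U j, (1 - pc n)) ≤ ∑ T ∈ (block k).powerset with F T, cramerOn (block k) T := by
  classical
  have hB : IsModel (prodMeasure (fun n : ℕ => 1 - pc n)) (fun n : ℕ => 1 - pc n) (trueSet (ι := ℕ)) :=
    isModel (fun n : ℕ => 1 - pc n) (fun n => by have := pc_le_one n; linarith) (fun n => by have := pc_nonneg n; linarith)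
  set μ : Measure (ℕ → Bool) := prodMeasure (fun n : ℕ => 1 - pc n) with hμ
  have h1 := harris hB J U
  refine h1.trans ?_
  have h2 := real_event (μ := μ) (A := trueSet (ι := ℕ)) hB.meas (block k) (fun S => F (block k \ S))
  have h3 : none (trueSet (ι := ℕ)) J U ⊆ {ω | F (block k \ tr (trueSet (ι := ℕ)) (block k) ω)} := by
    intro ω hω
    apply hF _ Finset.sdiff_subset
    intro j hj
    have h4 := hω j hj
    unfold all at h4
    rw [Set.mem_ofPred_eq] at h4
    push Not at h4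
    obtain ⟨n, hn, hn2⟩ := h4
    refine ⟨n, ?_, hn⟩
    rw [Finset.mem_sdiff]
    exact ⟨hU j hj hn, fun h5 => hn2 (mem_tr.1 h5).2⟩
  refine (measureReal_mono h3 (measure_ne_top _ _)).trans (le_of_eq ?_)
  rw [h2]
  refine Finset.sum_nbij' (fun S => block k \ S) (fun T => block k \ T) ?_ ?_ ?_ ?_ ?_
  · intro S hS
    rw [mem_filter, mem_powerset] at hS ⊢
    exact ⟨Finset.sdiff_subset, hS.2⟩
  · intro T hT
    rw [mem_filter, mem_powerset] at hT ⊢
    refine ⟨Finset.sdiff_subset, ?_⟩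
    rw [Finset.sdiff_sdiff_eq_self hT.1]
    exact hT.2
  · intro S hS
    rw [mem_filter, mem_powerset] at hS
    exact Finset.sdiff_sdiff_eq_self hS.1
  · intro T hT
    rw [mem_filter, mem_powerset] at hT
    exact Finset.sdiff_sdiff_eq_self hT.1
  · intro S hS
    rw [mem_filter, mem_powerset] at hS
    rw [(Pool.Agent.Q111.GE.t_LAW (ℕ → Bool) μ (trueSet (ι := ℕ))).1 _ hB (block k) S hS.1]
    unfold cramerOn
    rw [Finset.sdiff_sdiff_eq_self hS.1, mul_comm]
    congr 1
    · refine prod_congr rfl fun n hn => ?_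
      rw [← pc_block hk (Finset.sdiff_subset hn)]
      ring
    · refine prod_congr rfl fun n hn => ?_
      rw [← pc_block hk (hS.1 hn)]

/-- the sets `W \ Q`, `|Q| < m` -/
def few (W : Finset ℕ) (m : ℕ) : Finset (Finset ℕ) := W.powerset.filter (fun V => W.card < V.card + m)

theorem few_meet {W T : Finset ℕ} {m : ℕ} (h : ∀ V ∈ few W m, ∃ n ∈ T, n ∈ V) :
    m ≤ (T ∩ W).card := by
  by_contra hc
  push Not at hc
  have h1 : (W \ T).card + (T ∩ W).card = W.card := by
    rw [Finset.inter_comm]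
    exact Finset.card_sdiff_add_card_inter W T
  obtain ⟨n, hn, hn2⟩ := h (W \ T) (by
    unfold few
    rw [mem_filter, mem_powerset]
    exact ⟨Finset.sdiff_subset, by omega⟩)
  exact (Finset.mem_sdiff.1 hn2).2 hn

theorem card_few (W : Finset ℕ) (m : ℕ) : (few W m).card ≤ (W.card + 1) ^ m := by
  classical
  have h1 : (few W m).card ≤ ((range m).biUnion (fun i => W.powersetCard i)).card := by
    apply Finset.card_le_card_of_injOn (fun V => W \ V)
    · intro V hV
      have hV' : V ∈ few W m := hV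
      unfold few at hV'
      rw [mem_filter, mem_powerset] at hV'
      have h2 : (W \ V).card = W.card - V.card := Finset.card_sdiff_of_subset hV'.1
      have h3 := Finset.card_le_card hV'.1
      show W \ V ∈ (((range m).biUnion (fun i => W.powersetCard i) : Finset (Finset ℕ)) : Set (Finset ℕ))
      rw [Finset.mem_coe, mem_biUnion]
      refine ⟨(W \ V).card, ?_, ?_⟩
      · rw [mem_range]
        omega
      · rw [mem_powersetCard]
        exact ⟨Finset.sdiff_subset, rfl⟩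
    · intro V hV V' hV' h
      have hV1 : V ∈ few W m := hV
      have hV2 : V' ∈ few W m := hV'
      unfold few at hV1 hV2
      rw [mem_filter, mem_powerset] at hV1 hV2
      have h2 : W \ V = W \ V' := h
      rw [← Finset.sdiff_sdiff_eq_self hV1.1, h2, Finset.sdiff_sdiff_eq_self hV2.1]
  refine h1.trans (Finset.card_biUnion_le.trans ?_)
  have h2 : ∀ i ∈ range m, (W.powersetCard i).card ≤ W.card ^ i * m.choose i := by
    intro i hi
    rw [card_powersetCard]
    rw [mem_range] at hi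
    have h3 : 1 ≤ m.choose i := Nat.choose_pos hi.le
    calc W.card.choose i ≤ W.card ^ i := Nat.choose_le_pow _ _
      _ ≤ W.card ^ i * m.choose i := Nat.le_mul_of_pos_right _ h3
  refine (Finset.sum_le_sum h2).trans ?_
  rw [add_pow]
  simp only [one_pow, mul_one]
  rw [sum_range_succ]
  simp

/-- the windows -/
def WN (h k j : ℕ) : Finset ℕ :=
  if j = 0 then Ico (2 ^ k) (2 ^ k + h / 3) else
    if j = 1 then Ico (2 ^ (k + 1) - h / 3) (2 ^ (k + 1)) else Ico j (j + h)

/-- the indices of the windows -/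
def WI (h k : ℕ) : Finset ℕ := insert 0 (insert 1 (Icc (2 ^ k) (2 ^ (k + 1) - h)))

theorem rich_of {h m k : ℕ} (hk : 2 ≤ k) {T : Finset ℕ} (_ : T ⊆ block k)
    (hF : ∀ j ∈ WI h k, ∀ V ∈ few (WN h k j) m, ∃ n ∈ T, n ∈ V) : Rich h m k T := by
  have hk4 : 4 ≤ 2 ^ k := by
    calc 4 = 2 ^ 2 := by norm_num
      _ ≤ 2 ^ k := Nat.pow_le_pow_right (by norm_num) hk
  refine ⟨fun u hu1 hu2 => ?_, ?_, ?_⟩
  · have h1 := few_meet (hF u (by
      unfold WI
      rw [mem_insert, mem_insert, mem_Icc]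
      right; right
      omega))
    refine h1.trans (Finset.card_le_card ?_)
    intro n hn
    rw [mem_inter] at hn
    unfold WN at hn
    rw [if_neg (by omega), if_neg (by omega), mem_Ico] at hn
    rw [mem_filter]
    exact hn
  · have h1 := few_meet (hF 0 (by
      unfold WI
      rw [mem_insert]
      exact Or.inl rfl))
    refine h1.trans (Finset.card_le_card ?_)
    intro n hn
    rw [mem_inter] at hn
    unfold WN at hn
    rw [if_pos rfl, mem_Ico] at hn
    rw [mem_filter]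
    exact ⟨hn.1, hn.2.2⟩
  · have h1 := few_meet (hF 1 (by
      unfold WI
      rw [mem_insert, mem_insert]
      exact Or.inr (Or.inl rfl)))
    refine h1.trans (Finset.card_le_card ?_)
    intro n hn
    rw [mem_inter] at hn
    unfold WN at hn
    rw [if_neg (by omega), if_pos rfl, mem_Ico] at hn
    rw [mem_filter]
    exact ⟨hn.1, by omega⟩

theorem ev_log {η : ℝ} (hη : 0 < η) : ∀ᶠ k : ℕ in atTop,
    (Nat.log 2 k : ℝ) * Real.log ((k : ℝ) ^ 2 + 1) ≤ η * k := by
  have h1 := (Real.isLittleO_pow_log_id_atTop (n := 2)).bound (show 0 < η / 6 by positivity)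
  have h2 := tendsto_natCast_atTop_atTop (R := ℝ) |>.eventually h1
  filter_upwards [h2, eventually_ge_atTop 2] with k hk hk2
  have hk2r : (2 : ℝ) ≤ k := by exact_mod_cast hk2
  have h3 : 0 ≤ Real.log k := Real.log_nonneg (by linarith)
  rw [Real.norm_of_nonneg (by positivity), id, Real.norm_of_nonneg (by positivity)] at hk
  have h4 : (Nat.log 2 k : ℝ) ≤ 2 * Real.log k := by
    have h5 := Real.natLog_le_logb k 2
    rw [Real.logb, Nat.cast_ofNat] at h5
    refine h5.trans ?_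
    have h6 := log2_half
    rw [div_le_iff₀ (by linarith)]
    nlinarith
  have h5 : Real.log ((k : ℝ) ^ 2 + 1) ≤ 3 * Real.log k := by
    have h6 : (k : ℝ) ^ 2 + 1 ≤ (k : ℝ) ^ 3 := by nlinarith [sq_nonneg ((k : ℝ))]
    have h7 := Real.log_le_log (by positivity) h6
    rw [Real.log_pow] at h7
    exact_mod_cast h7
  have h6 : 0 ≤ Real.log ((k : ℝ) ^ 2 + 1) := Real.log_nonneg (by nlinarith)
  calc (Nat.log 2 k : ℝ) * Real.log ((k : ℝ) ^ 2 + 1) ≤ (2 * Real.log k) * (3 * Real.log k) :=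
        mul_le_mul h4 h5 h6 (by positivity)
    _ = 6 * Real.log k ^ 2 := by ring
    _ ≤ η * k := by linarith

theorem q_low {s : ℝ} (hs : 0 < s) (hs1 : s ≤ 1) {ε : ℝ} (hε : 0 < ε) : ∀ᶠ k : ℕ in atTop,
    ∀ (F : Finset ℕ → Prop) [DecidablePred F],
    (∀ T, T ⊆ block k → Rich (wl s k) (Nat.log 2 k) k T → F T) →
    Real.exp (-((2 : ℝ) ^ ((1 - s + ε) * k))) ≤ ∑ T ∈ (block k).powerset with F T, cramerOn (block k) T := by
  classical
  have hl2 := log2_half
  have hl1 := log2_one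
  have hl0 : 0 < Real.log 2 := by linarith
  obtain ⟨η, hη⟩ : ∃ η : ℝ, η = min (s / 24) (ε / 4) := ⟨_, rfl⟩
  have hη0 : 0 < η := by rw [hη]; positivity
  have hηs : η ≤ s / 24 := by rw [hη]; exact min_le_left _ _
  have hηε : η ≤ ε / 4 := by rw [hη]; exact min_le_right _ _
  obtain ⟨K, hK⟩ := exists_nat_ge (240 / s + 28 / ε)
  filter_upwards [eventually_ge_atTop (max K 2), ev_log hη0] with k hkK hlog F _ hF
  have hk2 : 2 ≤ k := le_trans (le_max_right _ _) hkK
  have hkK' : K ≤ k := le_trans (le_max_left _ _) hkK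
  have hk2r : (2 : ℝ) ≤ k := by exact_mod_cast hk2
  have hk4 : 4 ≤ 2 ^ k := by
    calc 4 = 2 ^ 2 := by norm_num
      _ ≤ 2 ^ k := Nat.pow_le_pow_right (by norm_num) hk2
  have hkK2 : (K : ℝ) ≤ k := by exact_mod_cast hkK'
  have hsk : 240 ≤ s * k := by
    have h1 : 240 / s ≤ k := by
      have : 0 < 28 / ε := by positivity
      linarith
    rw [div_le_iff₀ hs] at h1
    linarith
  have hεk : 28 ≤ ε * k := by
    have h1 : 28 / ε ≤ k := by
      have : 0 < 240 / s := by positivity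
      linarith
    rw [div_le_iff₀ hε] at h1
    linarith
  obtain ⟨h, hh⟩ : ∃ h : ℕ, h = wl s k := ⟨_, rfl⟩
  obtain ⟨m, hm⟩ : ∃ m : ℕ, m = Nat.log 2 k := ⟨_, rfl⟩
  rw [← hh, ← hm] at hF
  rw [← hm] at hlog
  have hmk : (m : ℝ) ≤ k := by
    rw [hm]
    exact_mod_cast Nat.log_le_self 2 k
  have hm0 : (0 : ℝ) ≤ m := Nat.cast_nonneg m
  have hx : (h : ℝ) ≤ s * (k * Real.log 2) ^ 2 := by
    rw [hh]
    exact Nat.floor_le (by positivity)
  have hx1 : s * (k * Real.log 2) ^ 2 - 1 ≤ h := by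
    rw [hh]
    exact (Nat.sub_one_lt_floor _).le
  have hx2 : (h : ℝ) ≤ (k : ℝ) ^ 2 := by
    refine hx.trans ?_
    have e1 : (k * Real.log 2) ^ 2 ≤ (k : ℝ) ^ 2 := by
      apply pow_le_pow_left₀ (by positivity)
      nlinarith
    calc s * (k * Real.log 2) ^ 2 ≤ 1 * (k : ℝ) ^ 2 := mul_le_mul hs1 e1 (by positivity) (by norm_num)
      _ = (k : ℝ) ^ 2 := one_mul _
  have hden : 0 < ((k : ℝ) + 1) * Real.log 2 := by positivity
  obtain ⟨w, hw⟩ : ∃ w : ℕ, w = h / 3 := ⟨_, rfl⟩
  have hwh : w ≤ h := by rw [hw]; exact Nat.div_le_self _ _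
  have hw3 : (h : ℝ) / 3 - 1 ≤ w := by
    have h1 : h < 3 * (w + 1) := by omega
    have h2 : (h : ℝ) < ((3 * (w + 1) : ℕ) : ℝ) := by exact_mod_cast h1
    push_cast at h2
    linarith
  have hk2s : 240 * (k : ℝ) ≤ s * (k : ℝ) ^ 2 := by
    have := mul_le_mul_of_nonneg_right hsk (show (0 : ℝ) ≤ k by linarith)
    calc 240 * (k : ℝ) ≤ s * k * k := this
      _ = s * (k : ℝ) ^ 2 := by ring
  have hlk : s * (k : ℝ) ^ 2 / 4 ≤ s * (k * Real.log 2) ^ 2 := by
    have e1 : (1 : ℝ) / 4 ≤ Real.log 2 ^ 2 := by nlinarith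
    have e2 : s * (k * Real.log 2) ^ 2 = s * (k : ℝ) ^ 2 * Real.log 2 ^ 2 := by ring
    rw [e2]
    have e3 : 0 ≤ s * (k : ℝ) ^ 2 := by positivity
    nlinarith
  have hhk : h ≤ 2 ^ k := by
    have h1 : k ^ 2 < 2 ^ k := by
      have h2 : 5 ≤ k := by
        have : (240 : ℝ) ≤ k := by nlinarith
        have h3 : (240 : ℕ) ≤ k := by exact_mod_cast this
        omega
      clear * - h2
      induction k, h2 using Nat.le_induction with
      | base => norm_num
      | succ n hn ih =>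
        rw [pow_succ 2 n]
        nlinarith
    have h2 : h ≤ k ^ 2 := by exact_mod_cast hx2
    omega
  have hh1 : 1 ≤ h := by
    have h1 : (0 : ℝ) < h := by nlinarith
    have h2 : 0 < h := by exact_mod_cast h1
    exact h2
  -- the exponents
  obtain ⟨l, hl⟩ : ∃ l : ℝ, l = m * Real.log ((h : ℝ) + 1) := ⟨_, rfl⟩
  have hl' : l ≤ η * k := by
    rw [hl]
    refine le_trans ?_ hlog
    exact mul_le_mul_of_nonneg_left (Real.log_le_log (by positivity) (by linarith)) hm0
  have hpow : ((h : ℝ) + 1) ^ m = Real.exp l := by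
    rw [hl, Real.exp_nat_mul, Real.exp_log (by positivity)]
  have hl00 : 0 ≤ l := by
    rw [hl]
    exact mul_nonneg hm0 (Real.log_nonneg (by
      have : (0 : ℝ) ≤ h := Nat.cast_nonneg h
      linarith))
  have hexp : s * Real.log 2 * (k - 1) - 2 ≤ h / (((k : ℝ) + 1) * Real.log 2) := by
    rw [le_div_iff₀ hden]
    refine le_trans ?_ hx1
    have e1 : (s * Real.log 2 * (k - 1) - 2) * (((k : ℝ) + 1) * Real.log 2) =
        s * (k * Real.log 2) ^ 2 - s * Real.log 2 ^ 2 - 2 * ((k + 1) * Real.log 2) := by ring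
    rw [e1]
    have e2 : 1 ≤ 2 * (((k : ℝ) + 1) * Real.log 2) := by nlinarith
    have e3 : 0 ≤ s * Real.log 2 ^ 2 := by positivity
    linarith
  have hmden : (m : ℝ) / (((k : ℝ) + 1) * Real.log 2) ≤ 2 := by
    rw [div_le_iff₀ hden]
    nlinarith
  obtain ⟨e₁, he₁⟩ : ∃ e₁ : ℝ, e₁ = Real.exp (-(((h : ℝ) - m) / (((k : ℝ) + 1) * Real.log 2))) := ⟨_, rfl⟩
  obtain ⟨e₂, he₂⟩ : ∃ e₂ : ℝ, e₂ = Real.exp (-(((w : ℝ) - m) / (((k : ℝ) + 1) * Real.log 2))) := ⟨_, rfl⟩
  obtain ⟨X, hX⟩ : ∃ X : ℝ, X = (2 : ℝ) ^ ((1 - s + ε) * k) := ⟨_, rfl⟩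
  have hX1 : 1 ≤ X := by
    rw [hX]
    exact Real.one_le_rpow (by norm_num) (mul_nonneg (by linarith) (Nat.cast_nonneg k))
  have hXe : X = Real.exp (Real.log 2 * ((1 - s + ε) * k)) := by
    rw [hX, Real.rpow_def_of_pos (by norm_num)]
  have hE1 : Real.exp l * e₂ ≤ 1 / 8 := by
    rw [he₂, ← Real.exp_add]
    have h1 : l + 3 ≤ ((w : ℝ) - m) / (((k : ℝ) + 1) * Real.log 2) := by
      rw [le_div_iff₀ hden]
      have h2 : (l + 3) * (((k : ℝ) + 1) * Real.log 2) ≤ (s / 24 * k + 3) * ((k + 1) * 1) := by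
        apply mul_le_mul
        · nlinarith
        · exact mul_le_mul_of_nonneg_left hl1 (by positivity)
        · positivity
        · positivity
      refine h2.trans ?_
      have h3 : (s / 24 * k + 3) * (((k : ℝ) + 1) * 1) = s * (k : ℝ) ^ 2 / 24 + (s / 24 * k + 3 * k) + 3 := by ring
      rw [h3]
      have h4 : s / 24 * k ≤ k := by nlinarith
      linarith
    have h2 : Real.exp (l + -(((w : ℝ) - m) / (((k : ℝ) + 1) * Real.log 2))) ≤ Real.exp (-3) :=
      Real.exp_le_exp.2 (by linarith)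
    refine h2.trans ?_
    have h3 := Real.exp_one_gt_d9
    have h4 : (8 : ℝ) ≤ Real.exp 3 := by
      have h5 : Real.exp 3 = Real.exp 1 ^ 3 := by
        rw [← Real.exp_nat_mul]
        norm_num
      rw [h5]
      have h6 : (2 : ℝ) ^ 3 ≤ Real.exp 1 ^ 3 := pow_le_pow_left₀ (by norm_num) (by linarith) 3
      linarith
    rw [Real.exp_neg, one_div]
    exact inv_anti₀ (by norm_num) h4
  have hE2 : (2 : ℝ) ^ k * (Real.exp l * e₁) ≤ X / 4 := by
    have h2k : (2 : ℝ) ^ k = Real.exp (k * Real.log 2) := by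
      rw [Real.exp_nat_mul, Real.exp_log (by norm_num)]
    rw [he₁, h2k, ← Real.exp_add, ← Real.exp_add, le_div_iff₀ (by norm_num)]
    have h4 : (4 : ℝ) ≤ Real.exp 2 := by
      have h5 : Real.exp 2 = Real.exp 1 ^ 2 := by
        rw [← Real.exp_nat_mul]
        norm_num
      rw [h5]
      have h3 := Real.exp_one_gt_d9
      have h6 : (2 : ℝ) ^ 2 ≤ Real.exp 1 ^ 2 := pow_le_pow_left₀ (by norm_num) (by linarith) 2
      linarith
    refine (mul_le_mul_of_nonneg_left h4 (Real.exp_pos _).le).trans ?_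
    rw [← Real.exp_add, hXe]
    apply Real.exp_le_exp.2
    have h5 : ((h : ℝ) - m) / (((k : ℝ) + 1) * Real.log 2) =
        h / (((k : ℝ) + 1) * Real.log 2) - m / (((k : ℝ) + 1) * Real.log 2) := sub_div _ _ _
    rw [h5]
    have h6 : s * Real.log 2 ≤ 1 := by nlinarith
    have h7 : ε * k / 2 ≤ ε * k * Real.log 2 := by
      have : 0 ≤ ε * k := by positivity
      nlinarith
    have h8 : l ≤ ε / 4 * k := hl'.trans (mul_le_mul_of_nonneg_right hηε (Nat.cast_nonneg k))
    nlinarith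
  have he₁0 : 0 < e₁ := by rw [he₁]; exact Real.exp_pos _
  have he₂0 : 0 < e₂ := by rw [he₂]; exact Real.exp_pos _
  have hel : 1 ≤ Real.exp l := Real.one_le_exp hl00
  have he₂h : e₂ ≤ 1 / 2 := by nlinarith
  have he12 : e₁ ≤ e₂ := by
    rw [he₁, he₂]
    apply Real.exp_le_exp.2
    have h1 : (w : ℝ) ≤ h := by exact_mod_cast hwh
    have h2 : ((w : ℝ) - m) / (((k : ℝ) + 1) * Real.log 2) ≤ ((h : ℝ) - m) / (((k : ℝ) + 1) * Real.log 2) :=
      div_le_div_of_nonneg_right (by linarith) hden.le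
    linarith
  have hexpin : ∀ x : ℝ, 0 ≤ x → x ≤ 1 / 2 → Real.exp (-(2 * x)) ≤ 1 - x := by
    intro x hx0 hx2
    rw [← Real.le_log_iff_exp_le (by linarith)]
    have h7 := Real.one_sub_inv_le_log_of_pos (show 0 < 1 - x by linarith)
    refine le_trans ?_ h7
    have h8 : (1 - x)⁻¹ ≤ 1 + 2 * x := by
      rw [inv_le_iff_one_le_mul₀ (by linarith)]
      nlinarith
    linarith
  -- the windows
  have hUb : ∀ j ∈ WI h k, WN h k j ⊆ block k := by
    intro j hj n hn
    unfold block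
    rw [mem_Ico]
    unfold WI at hj
    rw [mem_insert, mem_insert, mem_Icc] at hj
    unfold WN at hn
    rw [← hw] at hn
    have h2 : 2 ^ (k + 1) = 2 ^ k + 2 ^ k := by ring
    by_cases h0 : j = 0
    · rw [if_pos h0, mem_Ico] at hn
      omega
    · by_cases h1 : j = 1
      · rw [if_neg h0, if_pos h1, mem_Ico] at hn
        omega
      · rw [if_neg h0, if_neg h1, mem_Ico] at hn
        omega
  set J : Finset (Σ _ : ℕ, Finset ℕ) := (WI h k).sigma (fun j => few (WN h k j) m) with hJ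
  have hJm : ∀ p ∈ J, p.1 ∈ WI h k ∧ p.2 ⊆ WN h k p.1 ∧ (WN h k p.1).card < p.2.card + m := by
    intro p hp
    rw [hJ, Finset.mem_sigma] at hp
    unfold few at hp
    rw [mem_filter, mem_powerset] at hp
    exact hp
  have hmain := meet_low hk2 J (fun p => p.2) (fun p hp => (hJm p hp).2.1.trans (hUb _ (hJm p hp).1)) F
    (fun T hTb hT => hF T hTb (rich_of hk2 hTb fun j hj V hV => hT ⟨j, V⟩ (by
      rw [hJ, Finset.mem_sigma]
      exact ⟨hj, hV⟩)))
  refine le_trans ?_ hmain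
  obtain ⟨xx, hxx⟩ : ∃ xx : Finset ℕ → ℝ, xx = fun V => ∏ n ∈ V, (1 - pc n) := ⟨_, rfl⟩
  obtain ⟨ee, hee⟩ : ∃ ee : ℕ → ℝ, ee = fun j =>
      Real.exp (-((((WN h k j).card : ℝ) - m) / (((k : ℝ) + 1) * Real.log 2))) := ⟨_, rfl⟩
  have hx0 : ∀ V : Finset ℕ, 0 ≤ xx V := by
    intro V
    rw [hxx]
    exact Finset.prod_nonneg fun n _ => by have := pc_le_one n; linarith
  have hxe : ∀ p ∈ J, xx p.2 ≤ ee p.1 := by
    intro p hp
    obtain ⟨h1, h2, h3⟩ := hJm p hp
    rw [hxx, hee]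
    have h4 : ∏ n ∈ p.2, (1 - pc n) ≤ Real.exp (-(p.2.card / (((k : ℝ) + 1) * Real.log 2))) := by
      refine le_trans (le_of_eq ?_) (prod_window_le hk2 (h2.trans (hUb _ h1)))
      exact prod_congr rfl fun n hn => by rw [pc_block hk2 (hUb _ h1 (h2 hn))]
    refine h4.trans (Real.exp_le_exp.2 ?_)
    have h5 : ((WN h k p.1).card : ℝ) - m ≤ p.2.card := by
      have h6 : (WN h k p.1).card ≤ p.2.card + m := h3.le
      have h7 : ((WN h k p.1).card : ℝ) ≤ ((p.2.card + m : ℕ) : ℝ) := by exact_mod_cast h6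
      push_cast at h7
      linarith
    have h6 := div_le_div_of_nonneg_right h5 hden.le
    linarith
  have hn0 : (0 : ℕ) ∉ insert 1 (Icc (2 ^ k) (2 ^ (k + 1) - h)) := by
    rw [mem_insert, mem_Icc]
    omega
  have hn1 : (1 : ℕ) ∉ Icc (2 ^ k) (2 ^ (k + 1) - h) := by
    rw [mem_Icc]
    omega
  have hc0 : (WN h k 0).card = w := by
    unfold WN
    rw [if_pos rfl, Nat.card_Ico, ← hw]
    omega
  have hc1 : (WN h k 1).card = w := by
    unfold WN
    rw [if_neg (by norm_num), if_pos rfl, Nat.card_Ico, ← hw]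
    have h2 : 2 ^ (k + 1) = 2 ^ k + 2 ^ k := by ring
    omega
  have hcj : ∀ j ∈ Icc (2 ^ k) (2 ^ (k + 1) - h), (WN h k j).card = h := by
    intro j hj
    rw [mem_Icc] at hj
    unfold WN
    rw [if_neg (by omega), if_neg (by omega), Nat.card_Ico]
    omega
  have heb : ∀ j ∈ WI h k, ee j ≤ e₂ ∧ (WN h k j).card ≤ h := by
    intro j hj
    unfold WI at hj
    rw [mem_insert, mem_insert] at hj
    rcases hj with rfl | rfl | hj
    · rw [hee]
      simp only [hc0]
      rw [he₂]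
      exact ⟨le_rfl, hwh⟩
    · rw [hee]
      simp only [hc1]
      rw [he₂]
      exact ⟨le_rfl, hwh⟩
    · rw [hee]
      simp only [hcj j hj]
      rw [← he₁]
      exact ⟨he12, le_rfl⟩
  have hxh : ∀ p ∈ J, xx p.2 ≤ 1 / 2 := fun p hp =>
    ((hxe p hp).trans (heb _ (hJm p hp).1).1).trans he₂h
  have hprod : Real.exp (-(2 * ∑ p ∈ J, xx p.2)) ≤ ∏ p ∈ J, (1 - ∏ n ∈ p.2, (1 - pc n)) := by
    have h1 : -(2 * ∑ p ∈ J, xx p.2) = ∑ p ∈ J, -(2 * xx p.2) := by
      rw [Finset.mul_sum, Finset.sum_neg_distrib]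
    rw [h1, Real.exp_sum]
    apply Finset.prod_le_prod (fun _ _ => (Real.exp_pos _).le)
    intro p hp
    have h2 := hexpin (xx p.2) (hx0 _) (hxh p hp)
    rw [hxx] at h2 ⊢
    exact h2
  refine le_trans ?_ hprod
  apply Real.exp_le_exp.2
  rw [← hX]
  have hfew : ∀ j ∈ WI h k, ∑ V ∈ few (WN h k j) m, xx V ≤ Real.exp l * ee j := by
    intro j hj
    have h1 : ∑ V ∈ few (WN h k j) m, xx V ≤ ∑ _V ∈ few (WN h k j) m, ee j := by
      apply Finset.sum_le_sum
      intro V hV
      exact hxe ⟨j, V⟩ (by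
        rw [hJ, Finset.mem_sigma]
        exact ⟨hj, hV⟩)
    refine h1.trans ?_
    rw [Finset.sum_const, nsmul_eq_mul]
    apply mul_le_mul_of_nonneg_right _ (by rw [hee]; exact (Real.exp_pos _).le)
    rw [← hpow]
    have h2 := card_few (WN h k j) m
    have h3 : ((few (WN h k j) m).card : ℝ) ≤ (((WN h k j).card + 1) ^ m : ℕ) := by exact_mod_cast h2
    refine h3.trans ?_
    push_cast
    apply pow_le_pow_left₀ (by positivity)
    have h4 : ((WN h k j).card : ℝ) ≤ h := by exact_mod_cast (heb j hj).2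
    linarith
  have hsum : ∑ p ∈ J, xx p.2 ≤ ∑ j ∈ WI h k, Real.exp l * ee j := by
    rw [hJ, Finset.sum_sigma]
    exact Finset.sum_le_sum hfew
  have hsum2 : ∑ j ∈ WI h k, Real.exp l * ee j ≤ 1 / 4 + X / 4 := by
    unfold WI
    rw [sum_insert hn0, sum_insert hn1]
    have h1 : ee 0 = e₂ := by rw [hee]; simp only [hc0]; rw [he₂]
    have h2 : ee 1 = e₂ := by rw [hee]; simp only [hc1]; rw [he₂]
    have h3 : ∑ j ∈ Icc (2 ^ k) (2 ^ (k + 1) - h), Real.exp l * ee j =
        ((Icc (2 ^ k) (2 ^ (k + 1) - h)).card : ℝ) * (Real.exp l * e₁) := by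
      rw [← nsmul_eq_mul, ← Finset.sum_const]
      apply Finset.sum_congr rfl
      intro j hj
      rw [hee]
      simp only [hcj j hj]
      rw [← he₁]
    have h4 : ((Icc (2 ^ k) (2 ^ (k + 1) - h)).card : ℝ) ≤ (2 : ℝ) ^ k := by
      have h5 : (Icc (2 ^ k) (2 ^ (k + 1) - h)).card ≤ 2 ^ k := by
        rw [Nat.card_Icc]
        have h2 : 2 ^ (k + 1) = 2 ^ k + 2 ^ k := by ring
        omega
      exact_mod_cast h5
    have h5 : ((Icc (2 ^ k) (2 ^ (k + 1) - h)).card : ℝ) * (Real.exp l * e₁) ≤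
        (2 : ℝ) ^ k * (Real.exp l * e₁) := mul_le_mul_of_nonneg_right h4 (by positivity)
    rw [h1, h2, h3]
    linarith
  linarith

theorem t_SPH : J_SPH := by
  classical
  intro s hs hs1
  set q : ℕ → ℝ := fun k => ∑ T ∈ (block k).powerset with Rich (wl s k) (Nat.log 2 k) k T,
    cramerOn (block k) T with hq
  refine ⟨fun k T => if 0 < q k then (if Rich (wl s k) (Nat.log 2 k) k T then cramerOn (block k) T / q k else 0)
    else cramerOn (block k) T, ?_, ?_, ?_⟩
  · intro k hk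
    have hpos : ∀ T ∈ (block k).powerset, 0 < cramerOn (block k) T := fun T hT =>
      cramerOn_pos (fun n hn => three_le_of_mem_block hk hn) (mem_powerset.1 hT)
    by_cases hqk : 0 < q k
    · simp only [hqk, if_true]
      refine ⟨fun T hT => ?_, ?_⟩
      · split_ifs
        · have := hpos T hT
          positivity
        · exact le_rfl
      · rw [← sum_filter, ← sum_div]
        exact div_self hqk.ne'
    · simp only [hqk, if_false]
      exact ⟨fun T hT => (hpos T hT).le, sum_cramerOn _⟩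
  · intro ε hε
    filter_upwards [q_low hs hs1 hε, eventually_ge_atTop 2] with k hlow hk
    have hpos : ∀ T ∈ (block k).powerset, 0 < cramerOn (block k) T := fun T hT =>
      cramerOn_pos (fun n hn => three_le_of_mem_block hk hn) (mem_powerset.1 hT)
    have h1 : Real.exp (-((2 : ℝ) ^ ((1 - s + ε) * k))) ≤ q k :=
      hlow (Rich (wl s k) (Nat.log 2 k) k) (fun T _ hT => hT)
    have hqk : 0 < q k := lt_of_lt_of_le (Real.exp_pos _) h1
    simp only [hqk, if_true]
    have h2 : ∀ T ∈ (block k).powerset, (if Rich (wl s k) (Nat.log 2 k) k T then cramerOn (block k) T / q k else 0) *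
        Real.log ((if Rich (wl s k) (Nat.log 2 k) k T then cramerOn (block k) T / q k else 0) / cramerOn (block k) T) =
        if Rich (wl s k) (Nat.log 2 k) k T then cramerOn (block k) T / q k * (-Real.log (q k)) else 0 := by
      intro T hT
      have h3 := hpos T hT
      by_cases hFT : Rich (wl s k) (Nat.log 2 k) k T
      · simp only [hFT, if_true]
        congr 1
        rw [div_right_comm, div_self h3.ne', one_div, Real.log_inv]
      · simp only [hFT, if_false, zero_mul]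
    rw [sum_congr rfl h2, ← sum_filter, ← sum_mul, ← sum_div]
    have h3 : (∑ T ∈ (block k).powerset with Rich (wl s k) (Nat.log 2 k) k T, cramerOn (block k) T) / q k = 1 :=
      div_self hqk.ne'
    rw [h3, one_mul]
    have h4 : -((2 : ℝ) ^ ((1 - s + ε) * k)) ≤ Real.log (q k) := by
      rw [Real.le_log_iff_exp_le hqk]
      exact h1
    linarith
  · filter_upwards [q_low hs hs1 one_pos, eventually_ge_atTop 2] with k hlow hk T hT hne
    have h1 : Real.exp (-((2 : ℝ) ^ ((1 - s + 1) * k))) ≤ q k :=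
      hlow (Rich (wl s k) (Nat.log 2 k) k) (fun T _ hT => hT)
    have hqk : 0 < q k := lt_of_lt_of_le (Real.exp_pos _) h1
    simp only [hqk, if_true] at hne
    by_contra h
    simp only [h, if_false, ne_eq, not_true_eq_false] at hne

end Pool.Agent.Q195.SX
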